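import Mathlib

/-!
# Existence of the optimal shift and frame (Lu-Wenzel inequality)

For a real square matrix `X` of size at least two there are an orthogonal `O` and a real `z`
such that `A = Oᵀ X O - z` has diagonal `Aᵀ A + A Aᵀ`, and the two largest diagonal entries of
`Aᵀ A + A Aᵀ` sit at indices `i ≠ j` with `A i i + A j j = 0`.

Proof: maximise `tr₁(Yᵀ Y + Y Yᵀ) - (tr₁ Y)²` over the orthogonal conjugates `Y` of `X`, where
`tr₁` is the trace of the upper left two by two block.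
-/

set_option autoImplicit false

namespace Pool.Agent.H42.LW

open Matrix

/-- The spectral theorem for real symmetric matrices. -/
lemma exists_diag {k : Type*} [Fintype k] [DecidableEq k] (S : Matrix k k ℝ) (hS : Sᵀ = S) :
    ∃ (V : Matrix k k ℝ) (d : k → ℝ), Vᵀ * V = 1 ∧ Vᵀ * S * V = diagonal d := by
  have hH : S.IsHermitian := by
    rw [Matrix.IsHermitian, Matrix.conjTranspose_eq_transpose_of_trivial, hS]
  refine ⟨(hH.eigenvectorUnitary : Matrix k k ℝ), hH.eigenvalues, ?_, ?_⟩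
  · have := Unitary.coe_star_mul_self hH.eigenvectorUnitary
    rwa [Matrix.star_eq_conjTranspose, Matrix.conjTranspose_eq_transpose_of_trivial] at this
  · have := hH.conjStarAlgAut_star_eigenvectorUnitary
    rw [Unitary.conjStarAlgAut_star_apply, star_eq_conjTranspose,
      conjTranspose_eq_transpose_of_trivial] at this
    simpa [Function.comp_def] using this

/-- The scalar first and second order conditions. -/
lemma scalar_cond (D p d h : ℝ)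
    (H : ∀ c s : ℝ, c ^ 2 + s ^ 2 = 1 → s ^ 2 * D + 2 * (s * c) * p ≤ (s ^ 2 * d + s * c * h) ^ 2) :
    p = 0 ∧ D ≤ 0 := by
  have hp : p = 0 := by
    by_contra hp
    set C : ℝ := d ^ 2 + h ^ 2 + |D| + 1 with hC
    have hCpos : 0 < C := by positivity
    set N : ℝ := Real.sqrt (p ^ 2 + C ^ 2) with hN
    have hNpos : 0 < N := Real.sqrt_pos.2 (by positivity)
    have hN2 : N ^ 2 = p ^ 2 + C ^ 2 := Real.sq_sqrt (by positivity)
    have hcs : (C / N) ^ 2 + (p / N) ^ 2 = 1 := by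
      field_simp
      rw [hN2]; ring
    have h1 := H (C / N) (p / N) hcs
    have h2 : ((p / N) ^ 2 * d + p / N * (C / N) * h) ^ 2 ≤ (p / N) ^ 2 * (d ^ 2 + h ^ 2) := by
      have : ((p / N) ^ 2 * d + p / N * (C / N) * h) ^ 2
          = (p / N) ^ 2 * ((p / N) * d + (C / N) * h) ^ 2 := by ring
      rw [this]
      apply mul_le_mul_of_nonneg_left _ (sq_nonneg _)
      have : d ^ 2 + h ^ 2 = ((C / N) ^ 2 + (p / N) ^ 2) * (d ^ 2 + h ^ 2) := by rw [hcs]; ring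
      rw [this]
      nlinarith [sq_nonneg ((C / N) * d - (p / N) * h)]
    have h3 : (p / N) ^ 2 * (D + 2 * C) ≤ (p / N) ^ 2 * (d ^ 2 + h ^ 2) := by
      refine le_trans (le_of_eq ?_) (h1.trans h2)
      field_simp
    have h4 : 0 < (p / N) ^ 2 := by positivity
    have h5 : D + 2 * C ≤ d ^ 2 + h ^ 2 := le_of_mul_le_mul_left h3 h4
    have h6 : -|D| ≤ D := neg_abs_le D
    nlinarith [sq_nonneg d, sq_nonneg h, abs_nonneg D]
  refine ⟨hp, ?_⟩
  subst hp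
  by_contra hD
  push Not at hD
  by_cases hh : h = 0
  · subst hh
    set N : ℝ := Real.sqrt (D + d ^ 2) with hN
    have hNpos : 0 < N := Real.sqrt_pos.2 (by positivity)
    have hN2 : N ^ 2 = D + d ^ 2 := Real.sq_sqrt (by positivity)
    have hs2 : (Real.sqrt D) ^ 2 = D := Real.sq_sqrt hD.le
    have hcs : (d / N) ^ 2 + (Real.sqrt D / N) ^ 2 = 1 := by
      field_simp
      rw [hN2, hs2]; ring
    have h1 := H _ _ hcs
    have h2 : (Real.sqrt D / N) ^ 2 = D / N ^ 2 := by rw [div_pow, hs2]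
    rw [h2] at h1
    have h3 : D / N ^ 2 * D ≤ (D / N ^ 2 * d) ^ 2 := by
      refine le_trans (le_of_eq ?_) (h1.trans (le_of_eq ?_))
      · ring
      · ring
    have h4 : (D / N ^ 2 * d) ^ 2 = D ^ 2 * d ^ 2 / N ^ 4 := by ring
    have h5 : D / N ^ 2 * D = D ^ 2 * N ^ 2 / N ^ 4 := by
      field_simp
    rw [h4, h5] at h3
    have h6 : D ^ 2 * N ^ 2 ≤ D ^ 2 * d ^ 2 := by
      have : 0 < N ^ 4 := by positivity
      exact (div_le_div_iff_of_pos_right this).1 h3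
    rw [hN2] at h6
    nlinarith [pow_pos hD 3]
  · set N : ℝ := Real.sqrt (h ^ 2 + d ^ 2) with hN
    have hNpos : 0 < N := Real.sqrt_pos.2 (by positivity)
    have hN2 : N ^ 2 = h ^ 2 + d ^ 2 := Real.sq_sqrt (by positivity)
    have hcs : (-d / N) ^ 2 + (h / N) ^ 2 = 1 := by
      field_simp
      rw [hN2]; ring
    have h1 := H _ _ hcs
    have h2 : ((h / N) ^ 2 * d + h / N * (-d / N) * h) = 0 := by
      field_simp
      ring
    rw [h2] at h1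
    have h3 : 0 < (h / N) ^ 2 * D := by positivity
    nlinarith

section Block

variable {m : ℕ}

/-- Trace of the upper left two by two block. -/
def tr1 (M : Matrix (Fin 2 ⊕ Fin m) (Fin 2 ⊕ Fin m) ℝ) : ℝ :=
  M (Sum.inl 0) (Sum.inl 0) + M (Sum.inl 1) (Sum.inl 1)

/-- The variance type functional. -/
def Psi (Y : Matrix (Fin 2 ⊕ Fin m) (Fin 2 ⊕ Fin m) ℝ) : ℝ :=
  tr1 (Yᵀ * Y + Y * Yᵀ) - (tr1 Y) ^ 2

lemma tr1_add (M N : Matrix (Fin 2 ⊕ Fin m) (Fin 2 ⊕ Fin m) ℝ) :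
    tr1 (M + N) = tr1 M + tr1 N := by
  simp only [tr1, Matrix.add_apply]; ring

lemma tr1_sub (M N : Matrix (Fin 2 ⊕ Fin m) (Fin 2 ⊕ Fin m) ℝ) :
    tr1 (M - N) = tr1 M - tr1 N := by
  simp only [tr1, Matrix.sub_apply]; ring

lemma tr1_smul (c : ℝ) (M : Matrix (Fin 2 ⊕ Fin m) (Fin 2 ⊕ Fin m) ℝ) :
    tr1 (c • M) = c * tr1 M := by
  simp only [tr1, Matrix.smul_apply, smul_eq_mul]; ring

lemma tr1_one : tr1 (1 : Matrix (Fin 2 ⊕ Fin m) (Fin 2 ⊕ Fin m) ℝ) = 2 := by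
  simp only [tr1, Matrix.one_apply_eq]; norm_num

lemma tr1_transpose (M : Matrix (Fin 2 ⊕ Fin m) (Fin 2 ⊕ Fin m) ℝ) : tr1 Mᵀ = tr1 M := rfl

lemma Psi_shift (A : Matrix (Fin 2 ⊕ Fin m) (Fin 2 ⊕ Fin m) ℝ) (z : ℝ) :
    Psi (A - z • (1 : Matrix (Fin 2 ⊕ Fin m) (Fin 2 ⊕ Fin m) ℝ)) = Psi A := by
  have h : (A - z • (1 : Matrix (Fin 2 ⊕ Fin m) (Fin 2 ⊕ Fin m) ℝ))ᵀ * (A - z • 1)
      + (A - z • 1) * (A - z • (1 : Matrix (Fin 2 ⊕ Fin m) (Fin 2 ⊕ Fin m) ℝ))ᵀ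
      = (Aᵀ * A + A * Aᵀ) - (2 * z) • (A + Aᵀ) + (2 * z ^ 2) • 1 := by
    rw [transpose_sub, transpose_smul, transpose_one]
    simp only [sub_mul, mul_sub, smul_mul_assoc, mul_smul_comm, one_mul, mul_one, smul_sub,
      smul_add, smul_smul]
    module
  simp only [Psi, h, tr1_add, tr1_sub, tr1_smul, tr1_one, tr1_transpose]
  ring

lemma exists_max (X : Matrix (Fin 2 ⊕ Fin m) (Fin 2 ⊕ Fin m) ℝ) :
    ∃ O : Matrix (Fin 2 ⊕ Fin m) (Fin 2 ⊕ Fin m) ℝ, Oᵀ * O = 1 ∧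
      ∀ G : Matrix (Fin 2 ⊕ Fin m) (Fin 2 ⊕ Fin m) ℝ, Gᵀ * G = 1 →
        Psi (Gᵀ * X * G) ≤ Psi (Oᵀ * X * O) := by
  set K : Set (Matrix (Fin 2 ⊕ Fin m) (Fin 2 ⊕ Fin m) ℝ) := {O | Oᵀ * O = 1} with hKdef
  have hcl : IsClosed K := isClosed_eq (by fun_prop) continuous_const
  have hsub : K ⊆ Set.pi Set.univ fun _ => Set.pi Set.univ fun _ => Set.Icc (-1 : ℝ) 1 := by
    intro O hO i _ j _
    have h1 : (Oᵀ * O) j j = 1 := by
      rw [show Oᵀ * O = 1 from hO, Matrix.one_apply_eq]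
    rw [Matrix.mul_apply] at h1
    simp only [Matrix.transpose_apply] at h1
    have h2 : O i j * O i j ≤ ∑ x, O x j * O x j :=
      Finset.single_le_sum (f := fun x => O x j * O x j) (fun x _ => mul_self_nonneg _)
        (Finset.mem_univ i)
    rw [h1] at h2
    constructor <;> nlinarith
  have hK : IsCompact K :=
    IsCompact.of_isClosed_subset
      (isCompact_univ_pi fun _ => isCompact_univ_pi fun _ => isCompact_Icc) hcl hsub
  obtain ⟨O, hO, hmax⟩ := hK.exists_isMaxOn (f := fun G => Psi (Gᵀ * X * G))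
    ⟨1, by simp [K]⟩ (Continuous.continuousOn (by unfold Psi tr1; fun_prop))
  exact ⟨O, hO, fun G hG => hmax hG⟩

/-- Conjugation by a block orthogonal matrix does not change `tr1`. -/
lemma tr1_block (V1 : Matrix (Fin 2) (Fin 2) ℝ) (V2 : Matrix (Fin m) (Fin m) ℝ)
    (h1 : V1ᵀ * V1 = 1) (M : Matrix (Fin 2 ⊕ Fin m) (Fin 2 ⊕ Fin m) ℝ) :
    tr1 ((fromBlocks V1 0 0 V2)ᵀ * M * (fromBlocks V1 0 0 V2)) = tr1 M := by
  have hM := fromBlocks_toBlocks M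
  have key : (fromBlocks V1 0 0 V2)ᵀ * M * (fromBlocks V1 0 0 V2)
      = fromBlocks (V1ᵀ * M.toBlocks₁₁ * V1) (V1ᵀ * M.toBlocks₁₂ * V2)
        (V2ᵀ * M.toBlocks₂₁ * V1) (V2ᵀ * M.toBlocks₂₂ * V2) := by
    conv_lhs => rw [← hM]
    rw [fromBlocks_transpose, fromBlocks_multiply, fromBlocks_multiply]
    simp
  have ht : ∀ N : Matrix (Fin 2 ⊕ Fin m) (Fin 2 ⊕ Fin m) ℝ, tr1 N = trace N.toBlocks₁₁ := by
    intro N
    simp [tr1, trace, toBlocks₁₁, Fin.sum_univ_two]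
  rw [key, ht, ht, toBlocks_fromBlocks₁₁, Matrix.mul_assoc, trace_mul_comm, Matrix.mul_assoc,
    mul_eq_one_comm.1 h1, Matrix.mul_one]

/-- Householder reflection. -/
def hou {k : Type*} [DecidableEq k] (w : k → ℝ) : Matrix k k ℝ := 1 - (2 : ℝ) • vecMulVec w w

lemma hou_transpose {k : Type*} [DecidableEq k] (w : k → ℝ) : (hou w)ᵀ = hou w := by
  have h1 : (vecMulVec w w)ᵀ = vecMulVec w w := by
    ext a b; simp [vecMulVec_apply, mul_comm]
  rw [hou, transpose_sub, transpose_smul, transpose_one, h1]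

lemma hou_orth {k : Type*} [Fintype k] [DecidableEq k] (w : k → ℝ) (hw : w ⬝ᵥ w = 1) :
    (hou w)ᵀ * hou w = 1 := by
  have h2 : vecMulVec w w * vecMulVec w w = vecMulVec w w := by
    rw [vecMulVec_mul_vecMulVec, hw]
    simp
  rw [hou_transpose, hou]
  simp only [sub_mul, mul_sub, smul_mul_assoc, mul_smul_comm, one_mul, mul_one, h2]
  module

lemma hou_conj {k : Type*} [Fintype k] [DecidableEq k] (w : k → ℝ)
    (M : Matrix k k ℝ) (a : k) :
    ((hou w)ᵀ * M * hou w) a a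
      = M a a - 2 * w a * (w ᵥ* M) a - 2 * (M *ᵥ w) a * w a + 4 * (w ⬝ᵥ (M *ᵥ w)) * w a ^ 2 := by
  have h3 : vecMulVec w w * M = vecMulVec w (w ᵥ* M) := by
    rw [vecMulVec_mul]
  have h4 : M * vecMulVec w w = vecMulVec (M *ᵥ w) w := by
    rw [mul_vecMulVec]
  have h5 : vecMulVec w w * M * vecMulVec w w = (w ⬝ᵥ (M *ᵥ w)) • vecMulVec w w := by
    rw [Matrix.mul_assoc, h4, vecMulVec_mul_vecMulVec]
    ext a b
    simp [vecMulVec_apply]
    ring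
  have h6 : (hou w)ᵀ * M * hou w
      = M - (2 : ℝ) • (vecMulVec w w * M) - (2 : ℝ) • (M * vecMulVec w w)
        + (4 : ℝ) • (vecMulVec w w * M * vecMulVec w w) := by
    rw [hou_transpose, hou]
    simp only [sub_mul, mul_sub, smul_mul_assoc, mul_smul_comm, one_mul, mul_one]
    module
  rw [h6, h5, h3, h4]
  simp only [Matrix.add_apply, Matrix.sub_apply, Matrix.smul_apply, smul_eq_mul, vecMulVec_apply]
  ring

/-- The vector in the plane of `inl k` and `inr g`. -/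
def pv (k : Fin 2) (g : Fin m) (α β : ℝ) : Fin 2 ⊕ Fin m → ℝ :=
  α • Pi.single (Sum.inl k) 1 + β • Pi.single (Sum.inr g) 1

lemma pv_dot (k : Fin 2) (g : Fin m) (α β : ℝ) (v : Fin 2 ⊕ Fin m → ℝ) :
    pv k g α β ⬝ᵥ v = α * v (Sum.inl k) + β * v (Sum.inr g) := by
  simp [pv, add_dotProduct, smul_dotProduct]

lemma tr1_hou (k : Fin 2) (g : Fin m) (α β : ℝ) (hab : α ^ 2 + β ^ 2 = 1)
    (M : Matrix (Fin 2 ⊕ Fin m) (Fin 2 ⊕ Fin m) ℝ) :
    tr1 ((hou (pv k g α β))ᵀ * M * hou (pv k g α β)) = tr1 M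
      + 4 * α ^ 2 * β ^ 2 * (M (Sum.inr g) (Sum.inr g) - M (Sum.inl k) (Sum.inl k))
      - 2 * α * β * (1 - 2 * α ^ 2)
        * (M (Sum.inl k) (Sum.inr g) + M (Sum.inr g) (Sum.inl k)) := by
  have hvM : ∀ a, (pv k g α β ᵥ* M) a = α * M (Sum.inl k) a + β * M (Sum.inr g) a := by
    intro a
    rw [show (pv k g α β ᵥ* M) a = pv k g α β ⬝ᵥ (fun b => M b a) from rfl, pv_dot]
  have hMv : ∀ a, (M *ᵥ pv k g α β) a = α * M a (Sum.inl k) + β * M a (Sum.inr g) := by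
    intro a
    rw [show (M *ᵥ pv k g α β) a = (fun b => M a b) ⬝ᵥ pv k g α β from rfl, dotProduct_comm,
      pv_dot]
  have hb : β ^ 2 = 1 - α ^ 2 := by linarith
  have hl : ∀ k' : Fin 2, pv k g α β (Sum.inl k') = if k' = k then α else 0 := by
    intro k'
    simp [pv, Pi.single_apply]
  simp only [tr1, hou_conj, hvM, hMv, pv_dot, hl]
  fin_cases k
  · simp
    linear_combination (4 * α ^ 2 * M (Sum.inl 0) (Sum.inl 0)) * hab
  · simp
    linear_combination (4 * α ^ 2 * M (Sum.inl 1) (Sum.inl 1)) * hab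

lemma exists_half (c s : ℝ) (h : c ^ 2 + s ^ 2 = 1) :
    ∃ α β : ℝ, α ^ 2 + β ^ 2 = 1 ∧ -2 * α * β = s ∧ 1 - 2 * α ^ 2 = c := by
  have hc1 : c ≤ 1 := by nlinarith [sq_nonneg s]
  have hc2 : -1 ≤ c := by nlinarith [sq_nonneg s]
  have ha : (Real.sqrt ((1 - c) / 2)) ^ 2 = (1 - c) / 2 := Real.sq_sqrt (by linarith)
  have hb : (Real.sqrt ((1 + c) / 2)) ^ 2 = (1 + c) / 2 := Real.sq_sqrt (by linarith)
  have hab : (2 * Real.sqrt ((1 - c) / 2) * Real.sqrt ((1 + c) / 2)) ^ 2 = s ^ 2 := by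
    rw [mul_pow, mul_pow, ha, hb]; linarith
  rcases sq_eq_sq_iff_eq_or_eq_neg.1 hab with h1 | h1
  · exact ⟨Real.sqrt ((1 - c) / 2), -Real.sqrt ((1 + c) / 2), by rw [neg_sq, ha, hb]; ring,
      by rw [← h1]; ring, by rw [ha]; ring⟩
  · exact ⟨Real.sqrt ((1 - c) / 2), Real.sqrt ((1 + c) / 2), by rw [ha, hb]; ring,
      by linarith, by rw [ha]; ring⟩

lemma conj_sum {k : Type*} [Fintype k] [DecidableEq k] (G A : Matrix k k ℝ) (hG : Gᵀ * G = 1) :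
    (Gᵀ * A * G)ᵀ * (Gᵀ * A * G) + (Gᵀ * A * G) * (Gᵀ * A * G)ᵀ
      = Gᵀ * (Aᵀ * A + A * Aᵀ) * G := by
  have hGG : G * Gᵀ = 1 := mul_eq_one_comm.1 hG
  have h1 : (Gᵀ * A * G)ᵀ = Gᵀ * Aᵀ * G := by
    simp only [transpose_mul, transpose_transpose, Matrix.mul_assoc]
  have h2 : ∀ P Q : Matrix k k ℝ, (Gᵀ * P * G) * (Gᵀ * Q * G) = Gᵀ * (P * Q) * G := by
    intro P Q
    calc (Gᵀ * P * G) * (Gᵀ * Q * G) = Gᵀ * P * (G * Gᵀ) * Q * G := by
          simp only [Matrix.mul_assoc]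
      _ = Gᵀ * (P * Q) * G := by rw [hGG, Matrix.mul_one]; simp only [Matrix.mul_assoc]
  rw [h1, h2, h2, ← Matrix.add_mul, ← Matrix.mul_add]

lemma conj_shift {k : Type*} [Fintype k] [DecidableEq k] (G A : Matrix k k ℝ) (hG : Gᵀ * G = 1)
    (z : ℝ) : Gᵀ * (A - z • (1 : Matrix k k ℝ)) * G = Gᵀ * A * G - z • (1 : Matrix k k ℝ) := by
  rw [Matrix.mul_sub, Matrix.sub_mul, Matrix.mul_smul, Matrix.mul_one, Matrix.smul_mul, hG]

theorem exists_shift_sum (X : Matrix (Fin 2 ⊕ Fin m) (Fin 2 ⊕ Fin m) ℝ) :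
    ∃ (O : Matrix (Fin 2 ⊕ Fin m) (Fin 2 ⊕ Fin m) ℝ) (z : ℝ) (r : Fin 2 ⊕ Fin m → ℝ)
      (i j : Fin 2 ⊕ Fin m),
      Oᵀ * O = 1 ∧ i ≠ j ∧
      (Oᵀ * X * O - z • (1 : Matrix (Fin 2 ⊕ Fin m) (Fin 2 ⊕ Fin m) ℝ))ᵀ
          * (Oᵀ * X * O - z • (1 : Matrix (Fin 2 ⊕ Fin m) (Fin 2 ⊕ Fin m) ℝ))
        + (Oᵀ * X * O - z • (1 : Matrix (Fin 2 ⊕ Fin m) (Fin 2 ⊕ Fin m) ℝ))
          * (Oᵀ * X * O - z • (1 : Matrix (Fin 2 ⊕ Fin m) (Fin 2 ⊕ Fin m) ℝ))ᵀ = diagonal r ∧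
      (Oᵀ * X * O - z • (1 : Matrix (Fin 2 ⊕ Fin m) (Fin 2 ⊕ Fin m) ℝ)) i i
        + (Oᵀ * X * O - z • (1 : Matrix (Fin 2 ⊕ Fin m) (Fin 2 ⊕ Fin m) ℝ)) j j = 0 ∧
      r j ≤ r i ∧ ∀ a, a ≠ i → r a ≤ r j := by
  obtain ⟨O, hO, hmax⟩ := exists_max X
  set Y := Oᵀ * X * O with hY
  set z : ℝ := tr1 Y / 2 with hz
  set A := Y - z • (1 : Matrix (Fin 2 ⊕ Fin m) (Fin 2 ⊕ Fin m) ℝ) with hA
  set R := Aᵀ * A + A * Aᵀ with hR
  have hA0 : tr1 A = 0 := by
    rw [hA, tr1_sub, tr1_smul, tr1_one, hz]; ring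
  have hstar : ∀ G : Matrix (Fin 2 ⊕ Fin m) (Fin 2 ⊕ Fin m) ℝ, Gᵀ * G = 1 →
      tr1 (Gᵀ * R * G) - (tr1 (Gᵀ * A * G)) ^ 2 ≤ tr1 R := by
    intro G hG
    have hOG : (O * G)ᵀ * (O * G) = 1 := by
      rw [transpose_mul, Matrix.mul_assoc, ← Matrix.mul_assoc Oᵀ, hO, Matrix.one_mul, hG]
    have h1 := hmax (O * G) hOG
    have h2 : (O * G)ᵀ * X * (O * G) = Gᵀ * Y * G := by
      rw [hY, transpose_mul]; simp only [Matrix.mul_assoc]
    rw [h2, ← Psi_shift (Gᵀ * Y * G) z, ← Psi_shift Y z, ← conj_shift G Y hG z, ← hA] at h1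
    have h3 : Psi (Gᵀ * A * G) = tr1 (Gᵀ * R * G) - (tr1 (Gᵀ * A * G)) ^ 2 := by
      rw [Psi, conj_sum G A hG]
    have h4 : Psi A = tr1 R := by rw [Psi, hA0, ← hR]; ring
    rw [h3, h4] at h1
    exact h1
  have hRt : Rᵀ = R := by
    rw [hR, transpose_add, transpose_mul, transpose_mul, transpose_transpose]
  have hR11 : (R.toBlocks₁₁)ᵀ = R.toBlocks₁₁ := by
    ext a b; exact congrFun (congrFun hRt (Sum.inl a)) (Sum.inl b)
  have hR22 : (R.toBlocks₂₂)ᵀ = R.toBlocks₂₂ := by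
    ext a b; exact congrFun (congrFun hRt (Sum.inr a)) (Sum.inr b)
  obtain ⟨V1, d1, hV1, hd1⟩ := exists_diag _ hR11
  obtain ⟨V2, d2, hV2, hd2⟩ := exists_diag _ hR22
  set V := fromBlocks V1 0 0 V2 with hVdef
  have hV : Vᵀ * V = 1 := by
    rw [hVdef, fromBlocks_transpose, fromBlocks_multiply]
    simp [hV1, hV2, fromBlocks_one]
  set A' := Vᵀ * A * V with hA'
  set R' := Vᵀ * R * V with hR'
  have hAR : A'ᵀ * A' + A' * A'ᵀ = R' := by
    rw [hA', hR', hR]; exact conj_sum V A hV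
  have hA'0 : tr1 A' = 0 := by
    rw [hA', hVdef, tr1_block V1 V2 hV1, hA0]
  have hR'1 : tr1 R' = tr1 R := by
    rw [hR', hVdef, tr1_block V1 V2 hV1]
  have hR't : R'ᵀ = R' := by
    rw [hR']; simp only [transpose_mul, transpose_transpose, hRt, Matrix.mul_assoc]
  have hstar' : ∀ G : Matrix (Fin 2 ⊕ Fin m) (Fin 2 ⊕ Fin m) ℝ, Gᵀ * G = 1 →
      tr1 (Gᵀ * R' * G) - (tr1 (Gᵀ * A' * G)) ^ 2 ≤ tr1 R' := by
    intro G hG
    have hVG : (V * G)ᵀ * (V * G) = 1 := by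
      rw [transpose_mul, Matrix.mul_assoc, ← Matrix.mul_assoc Vᵀ, hV, Matrix.one_mul, hG]
    have h1 := hstar (V * G) hVG
    have h2 : ∀ M : Matrix (Fin 2 ⊕ Fin m) (Fin 2 ⊕ Fin m) ℝ,
        (V * G)ᵀ * M * (V * G) = Gᵀ * (Vᵀ * M * V) * G := by
      intro M; rw [transpose_mul]; simp only [Matrix.mul_assoc]
    rw [h2, h2, ← hR', ← hA', ← hR'1] at h1
    exact h1
  have hblock : R' = fromBlocks (V1ᵀ * R.toBlocks₁₁ * V1) (V1ᵀ * R.toBlocks₁₂ * V2)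
        (V2ᵀ * R.toBlocks₂₁ * V1) (V2ᵀ * R.toBlocks₂₂ * V2) := by
    rw [hR', hVdef]
    conv_lhs => rw [← fromBlocks_toBlocks R]
    rw [fromBlocks_transpose, fromBlocks_multiply, fromBlocks_multiply]
    simp
  rw [hd1, hd2] at hblock
  have hcond : ∀ (k : Fin 2) (g : Fin m), R' (Sum.inl k) (Sum.inr g) = 0 ∧
      R' (Sum.inr g) (Sum.inr g) - R' (Sum.inl k) (Sum.inl k) ≤ 0 := by
    intro k g
    apply scalar_cond _ _ (A' (Sum.inr g) (Sum.inr g) - A' (Sum.inl k) (Sum.inl k))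
      (A' (Sum.inl k) (Sum.inr g) + A' (Sum.inr g) (Sum.inl k))
    intro c s hcs
    obtain ⟨α, β, hab, hs, hc⟩ := exists_half c s hcs
    have hw : pv k g α β ⬝ᵥ pv k g α β = 1 := by
      rw [pv_dot]
      simp only [pv, Pi.add_apply, Pi.smul_apply, smul_eq_mul, Pi.single_eq_same]
      rw [Pi.single_eq_of_ne (by simp), Pi.single_eq_of_ne (by simp)]
      linarith
    have h1 := hstar' _ (hou_orth _ hw)
    rw [tr1_hou k g α β hab, tr1_hou k g α β hab, hA'0] at h1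
    have hsym : R' (Sum.inr g) (Sum.inl k) = R' (Sum.inl k) (Sum.inr g) :=
      congrFun (congrFun hR't (Sum.inl k)) (Sum.inr g)
    rw [hsym] at h1
    rw [← hs, ← hc]
    have e1 : (-2 * α * β) ^ 2 * (R' (Sum.inr g) (Sum.inr g) - R' (Sum.inl k) (Sum.inl k)) +
        2 * (-2 * α * β * (1 - 2 * α ^ 2)) * R' (Sum.inl k) (Sum.inr g)
        = 4 * α ^ 2 * β ^ 2 * (R' (Sum.inr g) (Sum.inr g) - R' (Sum.inl k) (Sum.inl k))
        - 2 * α * β * (1 - 2 * α ^ 2)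
          * (R' (Sum.inl k) (Sum.inr g) + R' (Sum.inl k) (Sum.inr g)) := by ring
    have e2 : ((-2 * α * β) ^ 2 * (A' (Sum.inr g) (Sum.inr g) - A' (Sum.inl k) (Sum.inl k)) +
        -2 * α * β * (1 - 2 * α ^ 2)
          * (A' (Sum.inl k) (Sum.inr g) + A' (Sum.inr g) (Sum.inl k))) ^ 2
        = (0 + 4 * α ^ 2 * β ^ 2 * (A' (Sum.inr g) (Sum.inr g) - A' (Sum.inl k) (Sum.inl k)) -
          2 * α * β * (1 - 2 * α ^ 2)
            * (A' (Sum.inl k) (Sum.inr g) + A' (Sum.inr g) (Sum.inl k))) ^ 2 := by ring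
    rw [e1, e2]
    linarith
  have hdiag : R' = diagonal (Sum.elim d1 d2) := by
    ext a b
    rcases a with a | a <;> rcases b with b | b
    · rw [hblock, fromBlocks_apply₁₁, diagonal_apply, diagonal_apply]
      simp
    · rw [(hcond a b).1, diagonal_apply_ne _ (by simp)]
    · have h1 := congrFun (congrFun hR't (Sum.inl b)) (Sum.inr a)
      rw [transpose_apply, (hcond b a).1] at h1
      rw [h1, diagonal_apply_ne _ (by simp)]
    · rw [hblock, fromBlocks_apply₂₂, diagonal_apply, diagonal_apply]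
      simp
  have hOV : (O * V)ᵀ * (O * V) = 1 := by
    rw [transpose_mul, Matrix.mul_assoc, ← Matrix.mul_assoc Oᵀ, hO, Matrix.one_mul, hV]
  have hfin : (O * V)ᵀ * X * (O * V) - z • (1 : Matrix (Fin 2 ⊕ Fin m) (Fin 2 ⊕ Fin m) ℝ) = A' := by
    rw [hA', hA, conj_shift V Y hV, hY, transpose_mul]
    simp only [Matrix.mul_assoc]
  have hle : ∀ (k : Fin 2) (g : Fin m), d2 g ≤ d1 k := by
    intro k g
    have h1 := (hcond k g).2
    rw [hdiag, diagonal_apply_eq, diagonal_apply_eq] at h1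
    simpa using h1
  rcases le_total (d1 1) (d1 0) with h | h
  · refine ⟨O * V, z, Sum.elim d1 d2, Sum.inl 0, Sum.inl 1, hOV, by simp, ?_, ?_, h, ?_⟩
    · rw [hfin, hAR, hdiag]
    · rw [hfin]; exact hA'0
    · intro a ha
      rcases a with a | a
      · fin_cases a
        · exact absurd rfl ha
        · exact le_refl _
      · exact hle 1 a
  · refine ⟨O * V, z, Sum.elim d1 d2, Sum.inl 1, Sum.inl 0, hOV, by simp, ?_, ?_, h, ?_⟩
    · rw [hfin, hAR, hdiag]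
    · rw [hfin, add_comm]; exact hA'0
    · intro a ha
      rcases a with a | a
      · fin_cases a
        · exact le_refl _
        · exact absurd rfl ha
      · exact hle 0 a

end Block

/-- **Optimal shift and frame.** -/
theorem exists_shift {n : ℕ} (hn : 2 ≤ n) (X : Matrix (Fin n) (Fin n) ℝ) :
    ∃ (O : Matrix (Fin n) (Fin n) ℝ) (z : ℝ) (r : Fin n → ℝ) (i j : Fin n),
      Oᵀ * O = 1 ∧ i ≠ j ∧
      (Oᵀ * X * O - z • (1 : Matrix (Fin n) (Fin n) ℝ))ᵀ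
          * (Oᵀ * X * O - z • (1 : Matrix (Fin n) (Fin n) ℝ))
        + (Oᵀ * X * O - z • (1 : Matrix (Fin n) (Fin n) ℝ))
          * (Oᵀ * X * O - z • (1 : Matrix (Fin n) (Fin n) ℝ))ᵀ = Matrix.diagonal r ∧
      (Oᵀ * X * O - z • (1 : Matrix (Fin n) (Fin n) ℝ)) i i
        + (Oᵀ * X * O - z • (1 : Matrix (Fin n) (Fin n) ℝ)) j j = 0 ∧
      r j ≤ r i ∧ ∀ a, a ≠ i → r a ≤ r j := by
  obtain ⟨m, rfl⟩ := Nat.exists_eq_add_of_le hn
  set e : Fin 2 ⊕ Fin m ≃ Fin (2 + m) := finSumFinEquiv with he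
  obtain ⟨O, z, r, i, j, hO, hij, hd, h0, h1, h2⟩ := exists_shift_sum (X.submatrix e e)
  set B := Oᵀ * X.submatrix e e * O - z • (1 : Matrix (Fin 2 ⊕ Fin m) (Fin 2 ⊕ Fin m) ℝ) with hB
  have hconj : (O.submatrix e.symm e.symm)ᵀ * X * (O.submatrix e.symm e.symm)
      - z • (1 : Matrix (Fin (2 + m)) (Fin (2 + m)) ℝ) = B.submatrix e.symm e.symm := by
    have hX : X = (X.submatrix e e).submatrix e.symm e.symm := by
      ext a b; simp
    conv_lhs => rw [hX]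
    rw [transpose_submatrix, submatrix_mul_equiv, submatrix_mul_equiv, hB]
    ext a b
    simp [Matrix.one_apply]
  refine ⟨O.submatrix e.symm e.symm, z, r ∘ e.symm, e i, e j, ?_, ?_, ?_, ?_, ?_, ?_⟩
  · rw [transpose_submatrix, submatrix_mul_equiv, hO, submatrix_one_equiv]
  · exact fun h => hij (e.injective h)
  · rw [hconj, transpose_submatrix, submatrix_mul_equiv, submatrix_mul_equiv]
    have h3 : (Bᵀ * B).submatrix e.symm e.symm + (B * Bᵀ).submatrix e.symm e.symm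
        = (Bᵀ * B + B * Bᵀ).submatrix e.symm e.symm := rfl
    rw [h3, hd, submatrix_diagonal_equiv]
  · rw [hconj]; simpa using h0
  · simpa using h1
  · intro a ha
    have := h2 (e.symm a) (fun h => ha (by rw [← h]; simp))
    simpa using this

end Pool.Agent.H42.LW
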